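import Pool.Agent.Helper6.OB.Goals3

/-!
# Project OB, packet COR
-/

set_option autoImplicit false

namespace Pool.Agent.Helper83.OB

open Pool.Agent.Helper6.CS
open Pool.Agent.Helper6.OB
open Pool.Agent.Helper41.CS (OOW Cds inS_iff)

set_option synthInstance.maxSize 1000000000

section

variable {M : Type} [w : World M]

theorem over_inst {a b : M} (hab : a ≤ b) {W : M → M} [IFn M W] (hW : OOW a W) {v : Wd M}
    (hv : Over b v) : Over b (inst a W v) := by
  intro p hp
  have h1 : p < fo a W v.len := by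
    unfold inst at hp
    rwa [Wd.len_of] at hp
  unfold inst
  rw [Wd.get_of_lt _ _ h1]
  split_ifs with h2
  · exact lt_of_lt_of_le h2 hab
  · obtain ⟨i, hi⟩ := World.exists_add _ _ (not_lt.1 h2)
    rw [hi, add_tsub_cancel_left]
    refine hv i ?_
    by_contra h3
    have h4 : W (fo a W v.len) = a + v.len :=
      lst_spec (P := fun p : M => W p = a + v.len) (hW.1 _)
    rcases (not_lt.1 h3).lt_or_eq with h5 | h5
    · have := hW.2 _ _ _ _ h5 h4 hi
      exact absurd this (not_lt.2 h1.le)
    · rw [← h5] at hi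
      exact absurd (lst_le (P := fun p : M => W p = a + v.len) hi) (not_le.2 h1)

/-- The positions of the variables of a word. -/
def HV (a : M) {m : ℕ} (e : Fin m → M) (v : Wd M) : Prop :=
  ∃ s : Fin m → M, (∀ i j, i < j → s i < s j) ∧ (∀ i, s i < v.len ∧ v.get (s i) = a + e i) ∧
    ∀ p, p < v.len → (∀ i, p ≠ s i) → v.get p < a

theorem HV.over {a n : M} {m : ℕ} {e : Fin m → M} (he : ∀ i, e i < n) {v : Wd M}
    (h : HV a e v) : Over (a + n) v := by
  classical
  obtain ⟨s, -, h2, h3⟩ := h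
  intro p hp
  by_cases h4 : ∀ i, p ≠ s i
  · exact lt_of_lt_of_le (h3 p hp h4) (le_add_of_nonneg_right (World.zero_le' _))
  · push Not at h4
    obtain ⟨i, rfl⟩ := h4
    rw [(h2 i).2]
    exact add_lt_add_right (he i) a

end

/-- The core, with all variables in `M`. -/
theorem core (hPAT : G_PAT) (hFA : G_FA) (M : Type) (w : World M) (r : ℕ) (hOB : @OBW M w r)
    (l a n : M) (hl : 0 < l) (f : M → M) (hfS : (L2of M w).InS f)
    (hf2 : ∀ (k : M) (g : M → M) (c c' : M), (∀ p, p < k → g p < a + n) → Cds c k g →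
      Cds c' k g → f c < l ∧ f c = f c') :
    ∃ W : M → M, (L2of M w).InS W ∧ OOW a W ∧
      ∀ (m : ℕ) (e : Fin m → M), m ≤ r → (∀ i, e i < n) → ∃ c, c < l ∧
        ∀ (v k : M) (g : M → M), (L2of M w).Codes v k g →
          (∃ s : Fin m → M, (∀ i j, i < j → s i < s j) ∧ (∀ i, s i < k ∧ g (s i) = a + e i) ∧
            ∀ p, p < k → (∀ i, p ≠ s i) → g p < a) →
          ∃ (d q : M) (h : M → M), (L2of M w).IsSubst a W k g q h ∧ (L2of M w).Codes d q h ∧
            f d = c := by
  classical
  have hfi : IFn M f := (inS_iff w f).1 hfS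
  obtain ⟨hFA1, hFA2⟩ := hFA M w
  have hex : ∀ z : Wd M, ∃ c : M, Cds c z.len z.get := fun z => hFA1 z.len z.get z.int
  let cc : Wd M → M := fun z => lst fun c => Cds c z.len z.get
  have hcc : ∀ z : Wd M, Cds (cc z) z.len z.get := by
    intro z
    have h1 : IP M fun c : M => Cds c z.len z.get :=
      IP.comp (P := fun p : Wd M × M => Cds p.2 p.1.len p.1.get) inferInstance
        (f := fun c : M => (z, c)) inferInstance
    exact lst_spec (P := fun c : M => Cds c z.len z.get) (hex z)
  have hcci : IFn M cc := by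
    have h1 : IP M fun p : Wd M × M => Cds p.2 p.1.len p.1.get := inferInstance
    exact IFn.lst (P := fun (z : Wd M) (c : M) => Cds c z.len z.get)
  let f' : Wd M → M := fun z => if Over (a + n) z then f (cc z) else 0
  have hf'i : IFn M f' := by
    change IFn M fun z : Wd M => if Over (a + n) z then f (cc z) else 0
    infer_instance
  have hf'1 : ∀ z, Over (a + n) z → f' z = f (cc z) := fun z hz => if_pos hz
  have hf'l : ∀ z, f' z < l := by
    intro z
    by_cases hz : Over (a + n) z
    · rw [hf'1 z hz]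
      exact (hf2 z.len z.get _ _ hz (hcc z) (hcc z)).1
    · have : f' z = 0 := if_neg hz
      rw [this]
      exact hl
  have hab : a ≤ a + n := le_add_of_nonneg_right (World.zero_le' _)
  obtain ⟨W, hW, hO, hdet⟩ := hOB a (a + n) f' hab hf'i ⟨l, hf'l⟩
  refine ⟨W, (inS_iff w W).2 hW, hO, fun m e hm he => ?_⟩
  -- the word of a code
  have hword : ∀ (v k : M) (g : M → M), (L2of M w).Codes v k g →
      (∃ s : Fin m → M, (∀ i j, i < j → s i < s j) ∧ (∀ i, s i < k ∧ g (s i) = a + e i) ∧
        ∀ p, p < k → (∀ i, p ≠ s i) → g p < a) →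
      ∃ v' : Wd M, v'.len = k ∧ (∀ i, i < k → v'.get i = g i) ∧ HV a e v' := by
    intro v k g hv hg
    obtain ⟨v', hl', hv'⟩ := hFA2 v k g hv
    obtain ⟨s, h1, h2, h3⟩ := hg
    refine ⟨v', hl', hv', s, h1, fun i => ⟨by rw [hl']; exact (h2 i).1, ?_⟩, fun p hp hp2 => ?_⟩
    · rw [hv' _ (h2 i).1]
      exact (h2 i).2
    · rw [hl'] at hp
      rw [hv' p hp]
      exact h3 p hp hp2
  by_cases h0 : ∃ v : Wd M, HV a e v
  swap
  · refine ⟨0, hl, fun v k g hv hg => ?_⟩
    obtain ⟨v', -, -, h⟩ := hword v k g hv hg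
    exact absurd ⟨v', h⟩ h0
  obtain ⟨v₀, hv₀⟩ := h0
  refine ⟨f' (inst a W v₀), hf'l _, fun v k g hv hg => ?_⟩
  obtain ⟨v', hl', hv', hHV⟩ := hword v k g hv hg
  have hpat : Pat a (a + n) m v' v₀ := hPAT M a n m e he v' v₀ hHV hv₀
  have hov : Over (a + n) v' := hHV.over he
  have hcol : f (cc (inst a W v')) = f' (inst a W v₀) := by
    rw [← hf'1 _ (over_inst hab hO hov)]
    exact hdet m hm v' v₀ hpat
  have hlen : (inst a W v').len = fo a W k := by
    unfold inst
    rw [Wd.len_of, hl']
  have hget : ∀ p, p < fo a W k →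
      (inst a W v').get p = if W p < a then W p else v'.get (W p - a) := by
    intro p hp
    unfold inst
    rw [Wd.get_of_lt _ _ (by rwa [hl'])]
  have hq : W (fo a W k) = a + k := lst_spec (P := fun p : M => W p = a + k) (hO.1 _)
  have hq2 : ∀ p, W p = a + k → fo a W k ≤ p := fun p hp =>
    lst_le (P := fun p : M => W p = a + k) hp
  refine ⟨cc (inst a W v'), fo a W k, (inst a W v').get, ⟨hq, ?_, ?_, ?_⟩, ?_, hcol⟩
  · intro (p : M) (hp : p < fo a W k) (hp2 : W p = a + k)
    exact absurd (hq2 p hp2) (not_le.2 hp)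
  · intro (p : M) (hp : p < fo a W k) (hp2 : W p < a)
    rw [hget p hp]
    exact if_pos hp2
  · intro (p : M) (i : M) (hp : p < fo a W k) (hp3 : W p = a + i)
    have hi : i < k := by
      by_contra h4
      rcases (not_lt.1 h4).lt_or_eq with h5 | h5
      · exact absurd (hO.2 _ _ _ _ h5 hq hp3) (not_lt.2 (le_of_lt hp))
      · rw [← h5] at hp3
        exact absurd (hq2 p hp3) (not_le.2 hp)
    rw [hget p hp, if_neg (by rw [hp3]; exact not_lt.2 (le_add_of_nonneg_right (World.zero_le' _))),
      hp3, add_tsub_cancel_left, hv' i hi]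
  · have := hcc (inst a W v')
    rw [hlen] at this
    exact this

theorem t_COR : G_COR := by
  intro hPAT hFA M w r hOB l a n hl f hf
  exact core hPAT hFA M w r hOB l a n hl f hf.1 hf.2

end Pool.Agent.Helper83.OB
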