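import Pool.Agent.Helper70.OB.Goals

/-!
# OB-OMI: one variable integrals of the kernels
-/

open MeasureTheory Set Metric Filter
open scoped ENNReal Topology
open Pool.Agent.Helper70.MM (om om_zero om_one om_rel om_pos om_hasDerivAt om_le om_measurable
  om_continuousOn)
open Pool.Agent.Helper70.OB

namespace Pool.Agent.Helper83.OB

/-- the kernels away from zero -/
theorem om_decay (j : ℕ) : ∃ C : ℝ, 0 ≤ C ∧ ∀ s : ℝ, 1 ≤ s → om j s ≤ C * Real.exp (-s) := by
  have h : ∀ j, (∃ C : ℝ, 0 ≤ C ∧ ∀ s : ℝ, 1 ≤ s → om j s ≤ C * Real.exp (-s)) ∧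
      ∃ C : ℝ, 0 ≤ C ∧ ∀ s : ℝ, 1 ≤ s → om (j + 1) s ≤ C * Real.exp (-s) := by
    intro j
    induction j with
    | zero =>
      refine ⟨⟨1, zero_le_one, fun s _ => ?_⟩, ⟨1, zero_le_one, fun s hs => ?_⟩⟩
      · rw [om_zero, one_mul]
      · rw [om_one, one_mul]
        exact div_le_self (Real.exp_pos _).le hs
    | succ j ih =>
      obtain ⟨⟨C, hC0, hC⟩, ⟨C', hC'0, hC'⟩⟩ := ih
      refine ⟨⟨C', hC'0, hC'⟩, ⟨C + (2 * j + 1) * C', by positivity, fun s hs => ?_⟩⟩
      have hs0 : 0 < s := lt_of_lt_of_le one_pos hs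
      have h1 := om_rel j hs0
      have h2 := om_pos (j + 2) hs0
      have h3 : 1 * om (j + 2) s ≤ s ^ 2 * om (j + 2) s :=
        mul_le_mul_of_nonneg_right (one_le_pow₀ hs) h2.le
      have h4 := hC s hs
      have h5 := mul_le_mul_of_nonneg_left (hC' s hs) (by positivity : (0 : ℝ) ≤ 2 * j + 1)
      show om (j + 2) s ≤ _
      calc om (j + 2) s ≤ om j s + (2 * j + 1) * om (j + 1) s := by linarith
        _ ≤ C * Real.exp (-s) + (2 * j + 1) * (C' * Real.exp (-s)) := add_le_add h4 h5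
        _ = _ := by ring
  exact (h j).1

/-- the kernels for all `s > 0` -/
theorem om_bound (j : ℕ) : ∃ C : ℝ, 0 ≤ C ∧ ∀ s : ℝ, 0 < s →
    s ^ (2 * j + 1) * om (j + 1) s ≤ C * ((1 + s) ^ (2 * j + 2) * Real.exp (-s)) := by
  have h : ∀ j, (∃ C : ℝ, 0 ≤ C ∧ ∀ s : ℝ, 0 < s →
      s ^ (2 * j + 1) * om (j + 1) s ≤ C * ((1 + s) ^ (2 * j + 2) * Real.exp (-s))) ∧
      ∃ C : ℝ, 0 ≤ C ∧ ∀ s : ℝ, 0 < s →
      s ^ (2 * (j + 1) + 1) * om (j + 2) s ≤ C * ((1 + s) ^ (2 * (j + 1) + 2) *
        Real.exp (-s)) := by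
    intro j
    induction j with
    | zero =>
      refine ⟨⟨1, zero_le_one, fun s hs => ?_⟩, ⟨1, zero_le_one, fun s hs => ?_⟩⟩
      · have h1 : s ^ (2 * 0 + 1) * om (0 + 1) s = Real.exp (-s) := by
          rw [show om (0 + 1) s = Real.exp (-s) / s from om_one s]
          field_simp
          ring
        rw [h1, one_mul]
        have h2 : (1 : ℝ) ≤ (1 + s) ^ (2 * 0 + 2) := one_le_pow₀ (by linarith)
        have := mul_le_mul_of_nonneg_right h2 (Real.exp_pos (-s)).le
        linarith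
      · have h0 := om_rel 0 hs
        rw [om_zero, show om (0 + 1) s = Real.exp (-s) / s from om_one s] at h0
        have h1 : s ^ (2 * (0 + 1) + 1) * om (0 + 2) s = (s + 1) * Real.exp (-s) := by
          calc s ^ (2 * (0 + 1) + 1) * om (0 + 2) s = s * (s ^ 2 * om (0 + 2) s) := by ring
            _ = _ := by
              rw [h0]
              field_simp
              push_cast
              ring
        rw [h1, one_mul]
        apply mul_le_mul_of_nonneg_right _ (Real.exp_pos (-s)).le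
        have h2 : (1 : ℝ) ≤ (1 + s) ^ 3 := one_le_pow₀ (by linarith)
        calc s + 1 = (1 + s) * 1 := by ring
          _ ≤ (1 + s) * (1 + s) ^ 3 := mul_le_mul_of_nonneg_left h2 (by linarith)
          _ = _ := by ring
    | succ j ih =>
      obtain ⟨⟨C, hC0, hC⟩, ⟨C', hC'0, hC'⟩⟩ := ih
      refine ⟨⟨C', hC'0, hC'⟩, ⟨C + (2 * j + 3) * C', by positivity, fun s hs => ?_⟩⟩
      have h1 := om_rel (j + 1) hs
      have h4 := hC s hs
      have h5 := hC' s hs
      have h6 : s ^ (2 * (j + 1 + 1) + 1) * om (j + 1 + 2) s =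
          s ^ 2 * (s ^ (2 * j + 1) * om (j + 1) s) +
          (2 * j + 3) * (s ^ (2 * (j + 1) + 1) * om (j + 2) s) := by
        calc s ^ (2 * (j + 1 + 1) + 1) * om (j + 1 + 2) s =
              s ^ (2 * j + 3) * (s ^ 2 * om (j + 1 + 2) s) := by ring
          _ = _ := by
            rw [h1]
            push_cast
            ring
      rw [h6]
      have h7 : s ^ 2 * (s ^ (2 * j + 1) * om (j + 1) s) ≤
          s ^ 2 * (C * ((1 + s) ^ (2 * j + 2) * Real.exp (-s))) :=
        mul_le_mul_of_nonneg_left h4 (by positivity)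
      have h8 : (2 * (j : ℝ) + 3) * (s ^ (2 * (j + 1) + 1) * om (j + 2) s) ≤
          (2 * j + 3) * (C' * ((1 + s) ^ (2 * (j + 1) + 2) * Real.exp (-s))) :=
        mul_le_mul_of_nonneg_left h5 (by positivity)
      have hE := (Real.exp_pos (-s)).le
      have h9 : s ^ 2 * (1 + s) ^ (2 * j + 2) ≤ (1 + s) ^ (2 * (j + 1 + 1) + 2) := by
        have e1 : (1 + s) ^ (2 * (j + 1 + 1) + 2) = (1 + s) ^ 4 * (1 + s) ^ (2 * j + 2) := by
          ring
        rw [e1]
        apply mul_le_mul_of_nonneg_right _ (by positivity)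
        nlinarith [mul_pos hs hs, mul_pos (mul_pos hs hs) hs, mul_pos (mul_pos hs hs) (mul_pos hs hs)]
      have h10 : (1 + s) ^ (2 * (j + 1) + 2) ≤ (1 + s) ^ (2 * (j + 1 + 1) + 2) :=
        pow_le_pow_right₀ (by linarith) (by omega)
      calc _ ≤ s ^ 2 * (C * ((1 + s) ^ (2 * j + 2) * Real.exp (-s))) +
            (2 * j + 3) * (C' * ((1 + s) ^ (2 * (j + 1) + 2) * Real.exp (-s))) :=
            add_le_add h7 h8
        _ = C * Real.exp (-s) * (s ^ 2 * (1 + s) ^ (2 * j + 2)) +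
            (2 * j + 3) * C' * Real.exp (-s) * (1 + s) ^ (2 * (j + 1) + 2) := by ring
        _ ≤ C * Real.exp (-s) * (1 + s) ^ (2 * (j + 1 + 1) + 2) +
            (2 * j + 3) * C' * Real.exp (-s) * (1 + s) ^ (2 * (j + 1 + 1) + 2) :=
            add_le_add (mul_le_mul_of_nonneg_left h9 (by positivity))
              (mul_le_mul_of_nonneg_left h10 (by positivity))
        _ = _ := by ring
  exact (h j).1

theorem poly_exp (N : ℕ) : ∃ D : ℝ, 0 ≤ D ∧ ∀ s : ℝ, 0 ≤ s →
    (1 + s) ^ N * Real.exp (-s) ≤ D * Real.exp (-(1 / 2) * s) := by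
  refine ⟨(N.factorial : ℝ) * 2 ^ N * Real.exp (1 / 2), by positivity, fun s hs => ?_⟩
  have h1 := Real.pow_div_factorial_le_exp ((1 + s) / 2) (by linarith) N
  rw [div_le_iff₀ (by positivity), div_pow] at h1
  have h2 : (1 + s) ^ N ≤ 2 ^ N * (Real.exp ((1 + s) / 2) * N.factorial) := by
    rw [div_le_iff₀ (by positivity)] at h1
    linarith
  have h3 : Real.exp ((1 + s) / 2) * Real.exp (-s) = Real.exp (1 / 2) * Real.exp (-(1 / 2) * s) := by
    rw [← Real.exp_add, ← Real.exp_add]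
    congr 1
    ring
  calc (1 + s) ^ N * Real.exp (-s) ≤
        2 ^ N * (Real.exp ((1 + s) / 2) * N.factorial) * Real.exp (-s) :=
        mul_le_mul_of_nonneg_right h2 (Real.exp_pos _).le
    _ = 2 ^ N * N.factorial * (Real.exp ((1 + s) / 2) * Real.exp (-s)) := by ring
    _ = _ := by rw [h3]; ring

/-- `s ^ (n-1) ω_j` is bounded by a multiple of `e^(-s/2)` -/
theorem wt_bound (n k : ℕ) (hn : n + 1 = 2 * k) (j : ℕ) (hj : j < k) :
    ∃ D : ℝ, 0 ≤ D ∧ ∀ s : ℝ, 0 < s → s ^ (n - 1) * om j s ≤ D * Real.exp (-(1 / 2) * s) := by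
  rcases Nat.eq_zero_or_pos j with rfl | hj0
  · obtain ⟨D, hD0, hD⟩ := poly_exp (n - 1)
    refine ⟨D, hD0, fun s hs => ?_⟩
    rw [om_zero]
    refine le_trans ?_ (hD s hs.le)
    exact mul_le_mul_of_nonneg_right (pow_le_pow_left₀ hs.le (by linarith) _) (Real.exp_pos _).le
  · obtain ⟨i, rfl⟩ : ∃ i, j = i + 1 := ⟨j - 1, by omega⟩
    obtain ⟨C, hC0, hC⟩ := om_bound i
    obtain ⟨D, hD0, hD⟩ := poly_exp (n - 1 - (2 * i + 1) + (2 * i + 2))
    refine ⟨C * D, mul_nonneg hC0 hD0, fun s hs => ?_⟩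
    have h1 : s ^ (n - 1) = s ^ (n - 1 - (2 * i + 1)) * s ^ (2 * i + 1) := by
      rw [← pow_add]
      congr 1
      omega
    have h2 := mul_le_mul_of_nonneg_left (hC s hs)
      (pow_nonneg hs.le (n - 1 - (2 * i + 1)))
    have h3 : s ^ (n - 1 - (2 * i + 1)) ≤ (1 + s) ^ (n - 1 - (2 * i + 1)) :=
      pow_le_pow_left₀ hs.le (by linarith) _
    calc s ^ (n - 1) * om (i + 1) s =
          s ^ (n - 1 - (2 * i + 1)) * (s ^ (2 * i + 1) * om (i + 1) s) := by rw [h1]; ring
      _ ≤ s ^ (n - 1 - (2 * i + 1)) * (C * ((1 + s) ^ (2 * i + 2) * Real.exp (-s))) := h2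
      _ ≤ (1 + s) ^ (n - 1 - (2 * i + 1)) * (C * ((1 + s) ^ (2 * i + 2) * Real.exp (-s))) :=
          mul_le_mul_of_nonneg_right h3 (by positivity)
      _ = C * ((1 + s) ^ (n - 1 - (2 * i + 1) + (2 * i + 2)) * Real.exp (-s)) := by
          rw [pow_add]
          ring
      _ ≤ C * (D * Real.exp (-(1 / 2) * s)) := mul_le_mul_of_nonneg_left (hD s hs.le) hC0
      _ = _ := by ring

theorem wt_int (n k : ℕ) (hn : n + 1 = 2 * k) (j : ℕ) (hj : j < k) :
    IntegrableOn (fun s : ℝ => s ^ (n - 1) * om j s) (Ioi 0) := by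
  obtain ⟨D, hD0, hD⟩ := wt_bound n k hn j hj
  have h1 : IntegrableOn (fun s : ℝ => D * Real.exp (-(1 / 2) * s)) (Ioi 0) :=
    (exp_neg_integrableOn_Ioi 0 (by norm_num : (0 : ℝ) < 1 / 2)).const_mul D
  refine Integrable.mono' h1 ?_ ?_
  · exact ((measurable_id.pow_const _).mul (om_measurable j)).aestronglyMeasurable
  · refine (ae_restrict_iff' measurableSet_Ioi).2 (Eventually.of_forall fun s hs => ?_)
    have hs' : 0 < s := hs
    rw [Real.norm_of_nonneg (mul_nonneg (pow_nonneg hs'.le _) (om_pos j hs').le)]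
    exact hD s hs'

theorem rec_A (n k : ℕ) (hk : 2 ≤ k) (hn : n + 1 = 2 * k) (j : ℕ) (hj : j + 1 < k) :
    AA n j = ((n : ℝ) - 1 - 2 * j) * AA n (j + 1) := by
  have hi0 := wt_int n k hn j (by omega)
  have hi1 := wt_int n k hn (j + 1) hj
  -- the primitive
  have hder : ∀ s ∈ Ioi (0 : ℝ), HasDerivAt (fun s : ℝ => s ^ n * om (j + 1) s)
      (((n : ℝ) - 1 - 2 * j) * (s ^ (n - 1) * om (j + 1) s) - s ^ (n - 1) * om j s) s := by
    intro s hs
    have hs' : 0 < s := hs
    have h1 := (hasDerivAt_pow n s).mul (om_hasDerivAt (j + 1) hs')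
    refine h1.congr_deriv ?_
    have h2 := om_rel j hs'
    have h3 : s ^ n = s ^ (n - 1) * s := by
      rw [← pow_succ]
      congr 1
      omega
    rw [h3]
    have h4 : s ^ (n - 1) * s * -(s * om (j + 1 + 1) s) = -(s ^ (n - 1) * (s ^ 2 * om (j + 2) s)) := by
      ring
    rw [h4, h2]
    push_cast
    ring
  have hint : IntegrableOn (fun s : ℝ => ((n : ℝ) - 1 - 2 * j) * (s ^ (n - 1) * om (j + 1) s) -
      s ^ (n - 1) * om j s) (Ioi 0) := (hi1.const_mul _).sub hi0
  -- a bound for the primitive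
  obtain ⟨C, hC0, hC⟩ := om_bound j
  obtain ⟨D, hD0, hD⟩ := poly_exp (n - (2 * j + 2) + (2 * j + 2))
  have hF : ∀ s : ℝ, 0 < s → s ^ n * om (j + 1) s ≤ s * (C * D * Real.exp (-(1 / 2) * s)) := by
    intro s hs
    have h1 : s ^ n = s * s ^ (n - (2 * j + 2)) * s ^ (2 * j + 1) := by
      rw [mul_assoc, ← pow_add, ← pow_succ']
      congr 1
      omega
    have h2 := mul_le_mul_of_nonneg_left (hC s hs)
      (pow_nonneg hs.le (n - (2 * j + 2)))
    have h3 : s ^ (n - (2 * j + 2)) ≤ (1 + s) ^ (n - (2 * j + 2)) :=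
      pow_le_pow_left₀ hs.le (by linarith) _
    calc s ^ n * om (j + 1) s =
          s * (s ^ (n - (2 * j + 2)) * (s ^ (2 * j + 1) * om (j + 1) s)) := by rw [h1]; ring
      _ ≤ s * (s ^ (n - (2 * j + 2)) * (C * ((1 + s) ^ (2 * j + 2) * Real.exp (-s)))) :=
          mul_le_mul_of_nonneg_left h2 hs.le
      _ ≤ s * ((1 + s) ^ (n - (2 * j + 2)) * (C * ((1 + s) ^ (2 * j + 2) * Real.exp (-s)))) := by
          apply mul_le_mul_of_nonneg_left _ hs.le
          exact mul_le_mul_of_nonneg_right h3 (by positivity)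
      _ = s * (C * ((1 + s) ^ (n - (2 * j + 2) + (2 * j + 2)) * Real.exp (-s))) := by
          rw [pow_add]
          ring
      _ ≤ s * (C * (D * Real.exp (-(1 / 2) * s))) := by
          apply mul_le_mul_of_nonneg_left _ hs.le
          exact mul_le_mul_of_nonneg_left (hD s hs.le) hC0
      _ = _ := by ring
  have hn0 : n ≠ 0 := by omega
  have hF0 : (fun s : ℝ => s ^ n * om (j + 1) s) 0 = 0 := by
    simp [hn0]
  have hnn : ∀ s : ℝ, 0 ≤ s → 0 ≤ s ^ n * om (j + 1) s := by
    intro s hs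
    rcases hs.eq_or_lt with h | h
    · rw [← h]
      simp [hn0]
    · exact mul_nonneg (pow_nonneg hs _) (om_pos _ h).le
  have hcont : ContinuousWithinAt (fun s : ℝ => s ^ n * om (j + 1) s) (Ici 0) 0 := by
    unfold ContinuousWithinAt
    rw [hF0]
    have h1 : Tendsto (fun s : ℝ => s * (C * D * Real.exp (-(1 / 2) * s))) (𝓝[≥] 0) (𝓝 0) := by
      have h2 : Continuous fun s : ℝ => s * (C * D * Real.exp (-(1 / 2) * s)) := by fun_prop
      have h3 := h2.tendsto 0
      simp only [zero_mul] at h3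
      exact h3.mono_left nhdsWithin_le_nhds
    refine tendsto_of_tendsto_of_tendsto_of_le_of_le' tendsto_const_nhds h1 ?_ ?_
    · filter_upwards [self_mem_nhdsWithin] with s hs using hnn s hs
    · filter_upwards [self_mem_nhdsWithin] with s hs
      rcases (show (0 : ℝ) ≤ s from hs).eq_or_lt with h | h
      · rw [← h]
        simp [hn0]
      · exact hF s h
  have htop : Tendsto (fun s : ℝ => s ^ n * om (j + 1) s) atTop (𝓝 0) := by
    have h1 : Tendsto (fun s : ℝ => C * D * (4 * Real.exp (-(1 / 4) * s))) atTop (𝓝 0) := by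
      have h2 : Tendsto (fun s : ℝ => Real.exp (-(1 / 4) * s)) atTop (𝓝 0) := by
        apply Real.tendsto_exp_atBot.comp
        exact tendsto_id.const_mul_atTop_of_neg (by norm_num)
      have h3 := (h2.const_mul 4).const_mul (C * D)
      simpa using h3
    refine tendsto_of_tendsto_of_tendsto_of_le_of_le' tendsto_const_nhds h1 ?_ ?_
    · filter_upwards [eventually_gt_atTop 0] with s hs using hnn s hs.le
    · filter_upwards [eventually_gt_atTop 0] with s hs
      refine (hF s hs).trans ?_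
      have h4 : s / 4 ≤ Real.exp (s / 4) := by linarith [Real.add_one_le_exp (s / 4)]
      have h5 : Real.exp (s / 4) * Real.exp (-(1 / 2) * s) = Real.exp (-(1 / 4) * s) := by
        rw [← Real.exp_add]
        congr 1
        ring
      have h6 := mul_le_mul_of_nonneg_right h4 (Real.exp_pos (-(1 / 2) * s)).le
      rw [h5] at h6
      calc s * (C * D * Real.exp (-(1 / 2) * s)) =
            C * D * (4 * (s / 4 * Real.exp (-(1 / 2) * s))) := by ring
        _ ≤ C * D * (4 * Real.exp (-(1 / 4) * s)) := by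
            apply mul_le_mul_of_nonneg_left _ (mul_nonneg hC0 hD0)
            linarith
  have hmain := integral_Ioi_of_hasDerivAt_of_tendsto hcont hder hint htop
  have hF0' : (0 : ℝ) ^ n * om (j + 1) 0 = 0 := hF0
  rw [hF0', sub_zero, integral_sub (hi1.const_mul _) hi0, integral_const_mul] at hmain
  unfold AA
  linarith

theorem omi : OMI := by
  intro n k hk hn
  have hrec := rec_A n k hk hn
  refine ⟨fun j hj => wt_int n k hn j hj, hrec, ?_, ?_⟩
  · intro j
    induction j with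
    | zero =>
      intro _
      have h0 : cc n 0 = 1 := by simp [cc]
      rw [h0, one_mul]
      have hn1 : n = (n - 1) + 1 := by omega
      have h1 : Real.Gamma ((n - 1 : ℕ) + 1 : ℝ) = ((n - 1).factorial : ℝ) :=
        Real.Gamma_nat_eq_factorial (n - 1)
      rw [← h1, Real.Gamma_eq_integral (by positivity)]
      unfold AA
      apply setIntegral_congr_fun measurableSet_Ioi
      intro s hs
      have hs' : 0 < s := hs
      show s ^ (n - 1) * om 0 s = Real.exp (-s) * s ^ ((n - 1 : ℕ) + 1 - 1 : ℝ)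
      rw [om_zero, add_sub_cancel_right, Real.rpow_natCast, mul_comm]
    | succ j ih =>
      intro hj
      have h1 := ih (by omega)
      have h2 := hrec j hj
      have h3 : cc n (j + 1) = cc n j * ((n : ℝ) - 1 - 2 * j) := by
        unfold cc
        rw [Finset.prod_range_succ]
      rw [h3, mul_assoc, ← h2, h1]
  · intro j
    obtain ⟨C, _, hC⟩ := om_decay j
    exact ⟨C, hC⟩

end Pool.Agent.Helper83.OB
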